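import Pool.Agent.Helper94.UP.Sheet2

open scoped ContDiff NNReal
open Set Filter Topology

namespace Pool.Agent.Helper94.UP

theorem stASD.{u} (h : ST_EKE.{u}) : ST_ASD.{u} := by
  intro X _ _ _ b hb hb01 hb0 hbs g ε hε
  have hg0 : 0 ≤ ‖g‖ := norm_nonneg g
  have hbc : Continuous b := hb.continuous
  have hgc : Continuous (fun x => g x) := g.continuous
  set β : ℝ := 1 / (1 + ‖g‖) with hβ
  have hβ0 : 0 < β := by positivity
  have hβ1 : β ≤ 1 := by
    rw [hβ, div_le_one (by positivity)]; linarith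
  have hβm : β * (1 + ‖g‖) = 1 := by
    rw [hβ]; field_simp
  -- on {b > 0} the norm is < 1
  have hnorm : ∀ x, 0 < b x → ‖x‖ < 1 := by
    intro x hx
    by_contra hcon
    have := hbs x (not_lt.1 hcon)
    linarith
  have hgle : ∀ x, 0 < b x → g x ≤ ‖g‖ := by
    intro x hx
    have h1 : g x ≤ ‖g x‖ := Real.le_norm_self _
    have h2 : ‖g x‖ ≤ ‖g‖ * ‖x‖ := g.le_opNorm x
    have h3 := hnorm x hx
    nlinarith [norm_nonneg x]
  set S : Set X := {x | β ≤ b x ∧ 1 ≤ b x * (1 + g x)} with hS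
  have hScl : IsClosed S := by
    have h1 : IsClosed {x | β ≤ b x} := isClosed_le continuous_const hbc
    have h2 : IsClosed {x | 1 ≤ b x * (1 + g x)} :=
      isClosed_le continuous_const (hbc.mul (continuous_const.add hgc))
    exact h1.inter h2
  have h0S : (0 : X) ∈ S := by
    refine ⟨by rw [hb0]; exact hβ1, by rw [hb0]; simp⟩
  have : CompleteSpace S := hScl.completeSpace_coe
  have : Nonempty S := ⟨⟨0, h0S⟩⟩
  have hSpos : ∀ x ∈ S, 0 < b x := fun x hx => lt_of_lt_of_le hβ0 hx.1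
  have hψS : ∀ x ∈ S, (b x)⁻¹ - g x ≤ 1 := by
    intro x hx
    have hp := hSpos x hx
    have h1 : (b x)⁻¹ ≤ 1 + g x := by
      rw [inv_le_iff_one_le_mul₀ hp]
      have := hx.2
      linarith
    linarith
  have hψn : ∀ x, 0 < b x → x ∉ S → 1 < (b x)⁻¹ - g x := by
    intro x hp hx
    by_cases h1 : β ≤ b x
    · have h2 : b x * (1 + g x) < 1 := by
        by_contra hcon
        exact hx ⟨h1, not_lt.1 hcon⟩
      have h3 : 1 + g x < (b x)⁻¹ := by
        rw [← one_div, lt_div_iff₀ hp]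
        linarith
      linarith
    · have h2 : b x < β := not_le.1 h1
      have h3 : 1 + ‖g‖ < (b x)⁻¹ := by
        have : β⁻¹ < (b x)⁻¹ := inv_strictAnti₀ hp h2
        have h4 : β⁻¹ = 1 + ‖g‖ := by rw [hβ]; simp
        linarith
      have := hgle x hp
      linarith
  obtain ⟨v, hv⟩ := h (S := S) (fun x => (b x.1)⁻¹ - g x.1)
    (by
      refine Continuous.sub ?_ (hgc.comp continuous_subtype_val)
      exact (hbc.comp continuous_subtype_val).inv₀ fun x => (hSpos x.1 x.2).ne')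
    ⟨1 - ‖g‖, fun w => by
      have hp := hSpos w.1 w.2
      have h1 : 1 ≤ (b w.1)⁻¹ := (one_le_inv₀ hp).2 (hb01 _).2
      have h2 := hgle w.1 hp
      show 1 - ‖g‖ ≤ (b w.1)⁻¹ - g w.1
      linarith⟩ ε hε
  have hvp : 0 < b v.1 := hSpos v.1 v.2
  refine ⟨v.1, hvp, ?_⟩
  have hmin : ∀ w, 0 < b w → (b v.1)⁻¹ - g v.1 ≤ (b w)⁻¹ - g w + ε * ‖w - v.1‖ := by
    intro w hw
    by_cases hwS : w ∈ S
    · have := hv ⟨w, hwS⟩
      simpa [Subtype.dist_eq, dist_eq_norm] using this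
    · have h1 := hψn w hw hwS
      have h2 := hψS v.1 v.2
      have h3 : 0 ≤ ε * ‖w - v.1‖ := by positivity
      linarith
  have hdb : DifferentiableAt ℝ b v.1 := hb.differentiable (by norm_num) v.1
  have hdi : DifferentiableAt ℝ (fun x => (b x)⁻¹) v.1 := hdb.inv hvp.ne'
  set D : StrongDual ℝ X := fderiv ℝ (fun x => (b x)⁻¹) v.1 - g with hD
  have hψd : HasFDerivAt (fun x => (b x)⁻¹ - g x) D v.1 := hdi.hasFDerivAt.sub g.hasFDerivAt
  have hlow : ∀ u : X, -(ε * ‖u‖) ≤ D u := by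
    intro u
    have hline : HasDerivAt (fun t : ℝ => v.1 + t • u) u 0 := by
      simpa using ((hasDerivAt_id (0 : ℝ)).smul_const u).const_add v.1
    have hcomp : HasDerivAt (fun t : ℝ => (b (v.1 + t • u))⁻¹ - g (v.1 + t • u)) (D u) 0 := by
      have h1 : HasFDerivAt (fun x => (b x)⁻¹ - g x) D (v.1 + (0 : ℝ) • u) := by simpa using hψd
      exact h1.comp_hasDerivAt (0 : ℝ) hline
    have hlim := hcomp.tendsto_slope_zero_right
    refine ge_of_tendsto hlim ?_
    have hpos : ∀ᶠ t : ℝ in 𝓝[>] 0, 0 < b (v.1 + t • u) := by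
      have hc : Continuous (fun t : ℝ => b (v.1 + t • u)) := by fun_prop
      have h1 : Tendsto (fun t : ℝ => b (v.1 + t • u)) (𝓝[>] 0) (𝓝 (b (v.1 + (0 : ℝ) • u))) :=
        (hc.tendsto 0).mono_left nhdsWithin_le_nhds
      exact h1.eventually (lt_mem_nhds (by simpa using hvp))
    filter_upwards [hpos, self_mem_nhdsWithin] with t ht ht0
    have ht0' : (0 : ℝ) < t := ht0
    have h1 := hmin _ ht
    have h2 : ‖v.1 + t • u - v.1‖ = t * ‖u‖ := by
      rw [add_sub_cancel_left, norm_smul, Real.norm_of_nonneg ht0'.le]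
    rw [h2] at h1
    have h3 : -(ε * ‖u‖) * t ≤ ((b (v.1 + t • u))⁻¹ - g (v.1 + t • u)) -
        ((b v.1)⁻¹ - g v.1) := by nlinarith
    have h4 : -(ε * ‖u‖) ≤ t⁻¹ * (((b (v.1 + t • u))⁻¹ - g (v.1 + t • u)) -
        ((b v.1)⁻¹ - g v.1)) := by
      rw [inv_mul_eq_div, le_div_iff₀ ht0']
      exact h3
    simpa using h4
  refine D.opNorm_le_bound hε.le fun u => ?_
  rw [Real.norm_eq_abs, abs_le]
  refine ⟨hlow u, ?_⟩
  have := hlow (-u)
  rw [norm_neg, map_neg] at this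
  linarith

end Pool.Agent.Helper94.UP
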